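import Pool.Agent.Q21.SU.Main

set_option autoImplicit false

namespace Pool.Agent.Results.MP_ca7eb7_al.FourInvolutions

open Matrix

/-- For every `n ≥ 3` every element of `SU(n)` is a product of four involutions of `SU(n)`. -/
theorem result (n : ℕ) (hn : 3 ≤ n) (A : specialUnitaryGroup (Fin n) ℂ) :
    ∃ I₁ I₂ I₃ I₄ : specialUnitaryGroup (Fin n) ℂ,
      I₁ ^ 2 = 1 ∧ I₂ ^ 2 = 1 ∧ I₃ ^ 2 = 1 ∧ I₄ ^ 2 = 1 ∧ A = I₁ * I₂ * I₃ * I₄ := by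
  obtain ⟨P, Q, ⟨R, hR, S, hS, hRR, hSS, hP⟩, ⟨T, hT, W, hW, hTT, hWW, hQ⟩, h⟩ :=
    Pool.Q21.SU.main n hn A.1 A.2
  refine ⟨⟨R, hR⟩, ⟨S, hS⟩, ⟨T, hT⟩, ⟨W, hW⟩, ?_, ?_, ?_, ?_, ?_⟩
  · apply Subtype.ext; rw [pow_two]; exact hRR
  · apply Subtype.ext; rw [pow_two]; exact hSS
  · apply Subtype.ext; rw [pow_two]; exact hTT
  · apply Subtype.ext; rw [pow_two]; exact hWW
  · apply Subtype.ext
    show A.1 = R * S * T * W
    rw [h, hP, hQ]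
    simp only [Matrix.mul_assoc]

end Pool.Agent.Results.MP_ca7eb7_al.FourInvolutions
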